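import Mathlib

/-!
# Casorati determinants: non-vanishing for elements in distinct twisted classes

`K` a field with an automorphism `tau`.  `nrm tau i x = x * tau x * ... * tau^(i-1) x`.
If `v k / v l` is never of the form `tau b / b` (`k ≠ l`), then the matrix
`(nrm tau i (v k))` is invertible.
-/

namespace H41TE

variable {K : Type*} [Field K]

/-- the twisted norm `x * tau x * ... * tau^(i-1) x` -/
def nrm (tau : K ≃+* K) : ℕ → K → K
  | 0, _ => 1
  | i + 1, x => x * tau (nrm tau i x)

@[simp] theorem nrm_zero (tau : K ≃+* K) (x : K) : nrm tau 0 x = 1 := rfl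

theorem nrm_succ (tau : K ≃+* K) (i : ℕ) (x : K) : nrm tau (i + 1) x = x * tau (nrm tau i x) := rfl

theorem nrm_eq_prod (tau : K ≃+* K) (i : ℕ) (x : K) :
    nrm tau i x = ∏ l ∈ Finset.range i, (tau ^ l) x := by
  induction i with
  | zero => simp
  | succ i ih =>
    rw [nrm_succ, ih, Finset.prod_range_succ', map_prod, mul_comm]
    congr 1
    refine Finset.prod_congr rfl fun l _ => ?_
    rw [pow_succ']
    rfl

/-- linear independence of the columns -/
theorem indep {ι : Type*} [DecidableEq ι] (tau : K ≃+* K) (v : ι → K)
    (h : ∀ k l, k ≠ l → ∀ b : K, b ≠ 0 → v k * b ≠ v l * tau b) (S : Finset ι) :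
    ∀ c : ι → K, (∀ i < S.card, ∑ k ∈ S, c k * nrm tau i (v k) = 0) → ∀ k ∈ S, c k = 0 := by
  induction S using Finset.induction_on with
  | empty => intro c _ k hk; simp at hk
  | insert a T ha ih =>
    intro c hc
    rw [Finset.card_insert_of_notMem ha] at hc
    have hc' : ∀ i < T.card + 1, c a * nrm tau i (v a) + ∑ k ∈ T, c k * nrm tau i (v k) = 0 := by
      intro i hi
      have := hc i hi
      rwa [Finset.sum_insert ha] at this
    have key : c a = 0 := by
      by_contra hca
      set d : ι → K := fun k => c k / c a with hd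
      have hd1 : ∀ i < T.card + 1, nrm tau i (v a) + ∑ k ∈ T, d k * nrm tau i (v k) = 0 := by
        intro i hi
        have := hc' i hi
        have h2 : (c a)⁻¹ * (c a * nrm tau i (v a) + ∑ k ∈ T, c k * nrm tau i (v k)) = 0 := by
          rw [this, mul_zero]
        rw [mul_add, ← mul_assoc, inv_mul_cancel₀ hca, one_mul, Finset.mul_sum] at h2
        rw [← h2]
        congr 1
        refine Finset.sum_congr rfl fun k _ => ?_
        simp only [hd]
        field_simp
      have he := ih (fun k => tau.symm (d k * v k - v a * tau (d k))) ?_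
      · have hdk : ∀ k ∈ T, d k = 0 := by
          intro k hk
          by_contra hne
          have h1 := he k hk
          have h2 : d k * v k - v a * tau (d k) = 0 := by
            have := congrArg tau h1
            simpa using this
          have hka : k ≠ a := fun hka => ha (hka ▸ hk)
          refine h k a hka (d k) hne ?_
          linear_combination h2
        have h0 := hd1 0 (Nat.succ_pos _)
        rw [Finset.sum_eq_zero (fun k hk => by rw [hdk k hk, zero_mul])] at h0
        simp at h0
      · intro i hi
        have e1 := hd1 (i + 1) (by omega)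
        have e2 := congrArg tau (hd1 i (by omega))
        rw [map_add, map_sum, map_zero] at e2
        simp only [nrm_succ, map_mul] at e1 e2
        apply tau.injective
        rw [map_sum, map_zero]
        have e3 : (v a * tau (nrm tau i (v a)) + ∑ k ∈ T, d k * (v k * tau (nrm tau i (v k))))
            - v a * (tau (nrm tau i (v a)) + ∑ k ∈ T, tau (d k) * tau (nrm tau i (v k))) = 0 := by
          rw [e1, e2]; ring
        rw [← e3, mul_add, Finset.mul_sum, add_sub_add_left_eq_sub, ← Finset.sum_sub_distrib]
        refine Finset.sum_congr rfl fun k _ => ?_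
        simp only [map_mul, RingEquiv.apply_symm_apply]
        ring
    have hT := ih c (fun i hi => by
      have := hc' i (by omega)
      rwa [key, zero_mul, zero_add] at this)
    intro k hk
    rcases Finset.mem_insert.mp hk with rfl | hk
    · exact key
    · exact hT k hk

/-- the Casorati determinant is not zero -/
theorem det_ne_zero (tau : K ≃+* K) {s : ℕ} (v : Fin s → K)
    (h : ∀ k l, k ≠ l → ∀ b : K, b ≠ 0 → v k * b ≠ v l * tau b) :
    (Matrix.of fun i k : Fin s => nrm tau (i : ℕ) (v k)).det ≠ 0 := by
  intro h0
  obtain ⟨c, hc, hc0⟩ := Matrix.exists_mulVec_eq_zero_iff.mpr h0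
  refine hc ?_
  have := indep tau v h Finset.univ c (by
    intro i hi
    rw [Finset.card_univ, Fintype.card_fin] at hi
    have := congrFun hc0 ⟨i, hi⟩
    simp only [Matrix.mulVec, dotProduct, Matrix.of_apply, Pi.zero_apply] at this
    rw [← this]
    exact Finset.sum_congr rfl fun k _ => mul_comm _ _)
  funext k
  exact this k (Finset.mem_univ k)

/-- version with multipliers `A k ≠ 0`: the matrix `(tau^i (A k) * nrm tau i (u k))` -/
theorem det_ne_zero' (tau : K ≃+* K) {s : ℕ} (u A : Fin s → K) (hA : ∀ k, A k ≠ 0)
    (h : ∀ k l, k ≠ l → ∀ b : K, b ≠ 0 → u k * b ≠ u l * tau b) :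
    (Matrix.of fun i k : Fin s => (tau ^ (i : ℕ)) (A k) * nrm tau (i : ℕ) (u k)).det ≠ 0 := by
  have key : ∀ (i : ℕ) (k : Fin s), (tau ^ i) (A k) * nrm tau i (u k) =
      A k * nrm tau i (u k * tau (A k) / A k) := by
    intro i k
    induction i with
    | zero => simp
    | succ i ih =>
      rw [nrm_succ, nrm_succ, pow_succ']
      have hAk := hA k
      have h1 : tau ((tau ^ i) (A k) * nrm tau i (u k)) =
        tau (A k * nrm tau i (u k * tau (A k) / A k)) := by rw [ih]
      rw [map_mul, map_mul] at h1
      change tau ((tau ^ i) (A k)) * (u k * tau (nrm tau i (u k))) = _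
      calc tau ((tau ^ i) (A k)) * (u k * tau (nrm tau i (u k)))
          = u k * (tau ((tau ^ i) (A k)) * tau (nrm tau i (u k))) := by ring
        _ = u k * (tau (A k) * tau (nrm tau i (u k * tau (A k) / A k))) := by rw [h1]
        _ = A k * (u k * tau (A k) / A k * tau (nrm tau i (u k * tau (A k) / A k))) := by
          field_simp
  have hM : (Matrix.of fun i k : Fin s => (tau ^ (i : ℕ)) (A k) * nrm tau (i : ℕ) (u k)) =
      (Matrix.of fun i k : Fin s => A k * (Matrix.of fun i k : Fin s =>
        nrm tau (i : ℕ) (u k * tau (A k) / A k)) i k) := by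
    ext i k
    simp only [Matrix.of_apply]
    exact key i k
  rw [hM, Matrix.det_mul_row]
  refine mul_ne_zero (Finset.prod_ne_zero_iff.mpr fun k _ => hA k) ?_
  refine det_ne_zero tau _ ?_
  intro k l hkl b hb he
  have hk := hA k
  have hl := hA l
  have htl : tau (A l) ≠ 0 := by simpa using hl
  have htk : tau (A k) ≠ 0 := by simpa using hk
  refine h k l hkl (b * A l / A k) (div_ne_zero (mul_ne_zero hb hl) hk) ?_
  rw [map_div₀, map_mul]
  field_simp at he ⊢
  linear_combination he

end H41TE
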