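import Pool.Agent.H41.TE.ZeroEst

/-!
# Zero estimate for the dilations `f (k x)`, `f (x + 1) = x / (x + 1/2) f x`

`numD k = ∏_{j<k} 2(kX + j)`, `denD k = ∏_{j<k} (2(kX + j) + 1)`;
`Rser k a = ∏_{l ≤ ka} (2l - 1 - 2kX) / (2l - 2kX)`.
-/

namespace H41TE

open Polynomial

noncomputable def numD (k : ℕ) : ℚ[X] :=
  ∏ j ∈ Finset.range k, (C (2 * k : ℚ) * X + C (2 * j : ℚ))

noncomputable def denD (k : ℕ) : ℚ[X] :=
  ∏ j ∈ Finset.range k, (C (2 * k : ℚ) * X + C (2 * j + 1 : ℚ))

/-- the number of roots in the class `c + ℤ` -/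
noncomputable def cd (c : ℚ) (P : ℚ[X]) : ℕ := by
  classical exact P.roots.countP (fun r => ∃ z : ℤ, r = c + z)

theorem cd_mul (c : ℚ) {P Q : ℚ[X]} (hP : P ≠ 0) (hQ : Q ≠ 0) : cd c (P * Q) = cd c P + cd c Q := by
  classical
  unfold cd
  rw [roots_mul (mul_ne_zero hP hQ), Multiset.countP_add]

theorem cd_tr (c : ℚ) (P : ℚ[X]) : cd c (tr 1 P) = cd c P := by
  classical
  unfold cd
  have h1 : (tr 1 P).roots.map (fun x => x + 1) = P.roots := by
    have := P.map_roots_comp_C_mul_X_add_C 1 1 isUnit_one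
    simpa [tr] using this
  conv_rhs => rw [← h1]
  rw [Multiset.countP_map, Multiset.countP_eq_card_filter]
  congr 1
  refine Multiset.filter_congr fun r _ => ?_
  constructor
  · rintro ⟨z, hz⟩
    exact ⟨z + 1, by rw [hz]; push_cast; ring⟩
  · rintro ⟨z, hz⟩
    exact ⟨z - 1, by push_cast; linarith⟩

theorem cd_prod (c : ℚ) (k : ℕ) (P : ℕ → ℚ[X]) (h : ∀ j < k, P j ≠ 0) :
    cd c (∏ j ∈ Finset.range k, P j) = ∑ j ∈ Finset.range k, cd c (P j) := by
  classical
  induction k with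
  | zero => simp [cd]
  | succ k ih =>
    rw [Finset.prod_range_succ, Finset.sum_range_succ, cd_mul _ _ (h k (by omega)),
      ih (fun j hj => h j (by omega))]
    rw [Finset.prod_ne_zero_iff]
    intro j hj
    exact h j (by have := Finset.mem_range.mp hj; omega)

theorem lin_ne_zero {a : ℚ} (b : ℚ) (ha : a ≠ 0) : C a * X + C b ≠ (0 : ℚ[X]) := by
  intro h
  have := congrArg (fun P => coeff P 1) h
  simp [coeff_C] at this
  exact ha this

theorem cd_lin_one {a b c : ℚ} (ha : a ≠ 0) (h : ∃ z : ℤ, -(a⁻¹ * b) = c + z) :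
    cd c (C a * X + C b) = 1 := by
  classical
  unfold cd
  rw [roots_C_mul_X_add_C _ ha]
  rw [Multiset.countP_eq_card_filter, Multiset.filter_singleton, if_pos h, Multiset.card_singleton]

theorem cd_lin_zero {a b c : ℚ} (ha : a ≠ 0) (h : ¬ ∃ z : ℤ, -(a⁻¹ * b) = c + z) :
    cd c (C a * X + C b) = 0 := by
  classical
  unfold cd
  rw [roots_C_mul_X_add_C _ ha]
  rw [Multiset.countP_eq_card_filter, Multiset.filter_singleton, if_neg h]
  rfl

theorem numD_ne_zero (k : ℕ) : numD k ≠ 0 := by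
  unfold numD
  rw [Finset.prod_ne_zero_iff]
  intro j hj
  have := Finset.mem_range.mp hj
  have hk : (k : ℚ) ≠ 0 := by exact_mod_cast (by omega : k ≠ 0)
  exact lin_ne_zero _ (mul_ne_zero two_ne_zero hk)

theorem denD_ne_zero (k : ℕ) : denD k ≠ 0 := by
  unfold denD
  rw [Finset.prod_ne_zero_iff]
  intro j hj
  have := Finset.mem_range.mp hj
  have hk : (k : ℚ) ≠ 0 := by exact_mod_cast (by omega : k ≠ 0)
  exact lin_ne_zero _ (mul_ne_zero two_ne_zero hk)

/-- for `l < k` or even numerators nothing lies in the class of `-1/(2k)` -/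
theorem cd_numD (k l : ℕ) (hk : 0 < k) (hlk : l ≤ k) : cd (-(1 / (2 * k) : ℚ)) (numD l) = 0 := by
  unfold numD
  rw [cd_prod]
  · refine Finset.sum_eq_zero fun j hj => ?_
    have hj' := Finset.mem_range.mp hj
    have hl : (l : ℚ) ≠ 0 := by exact_mod_cast (by omega : l ≠ 0)
    have hkq : (k : ℚ) ≠ 0 := by exact_mod_cast (by omega : k ≠ 0)
    refine cd_lin_zero (mul_ne_zero two_ne_zero hl) ?_
    rintro ⟨z, hz⟩
    -- `-j/l = -1/(2k) + z`, so `2kj = l - 2klz`, hence `2k ∣ l`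
    have h1 : (l : ℚ) = 2 * k * j + 2 * k * l * z := by
      field_simp at hz
      linarith
    have h2 : (l : ℤ) = 2 * k * j + 2 * k * l * z := by exact_mod_cast h1
    have h3 : (2 * k : ℤ) ∣ l := ⟨j + l * z, by linear_combination h2⟩
    have h4 := Int.le_of_dvd (by omega) h3
    omega
  · intro j hj
    have hl : (l : ℚ) ≠ 0 := by exact_mod_cast (by omega : l ≠ 0)
    exact lin_ne_zero _ (mul_ne_zero two_ne_zero hl)

theorem cd_denD_lt (k l : ℕ) (hlk : l < k) : cd (-(1 / (2 * k) : ℚ)) (denD l) = 0 := by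
  unfold denD
  rw [cd_prod]
  · refine Finset.sum_eq_zero fun j hj => ?_
    have hj' := Finset.mem_range.mp hj
    have hl : (l : ℚ) ≠ 0 := by exact_mod_cast (by omega : l ≠ 0)
    have hkq : (k : ℚ) ≠ 0 := by exact_mod_cast (by omega : k ≠ 0)
    refine cd_lin_zero (mul_ne_zero two_ne_zero hl) ?_
    rintro ⟨z, hz⟩
    -- `-(2j+1)/(2l) = -1/(2k) + z`, so `k(2j+1) = l - 2klz`, hence `k ∣ l`
    have h1 : (l : ℚ) = k * (2 * j + 1) + 2 * k * l * z := by
      field_simp at hz
      linarith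
    have h2 : (l : ℤ) = k * (2 * j + 1) + 2 * k * l * z := by exact_mod_cast h1
    have h3 : (k : ℤ) ∣ l := ⟨2 * j + 1 + 2 * l * z, by linear_combination h2⟩
    have h4 := Int.le_of_dvd (by omega) h3
    omega
  · intro j hj
    have hl : (l : ℚ) ≠ 0 := by exact_mod_cast (by omega : l ≠ 0)
    exact lin_ne_zero _ (mul_ne_zero two_ne_zero hl)

theorem cd_denD_self (k : ℕ) (hk : 0 < k) : cd (-(1 / (2 * k) : ℚ)) (denD k) = 1 := by
  have hkq : (k : ℚ) ≠ 0 := by exact_mod_cast (by omega : k ≠ 0)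
  unfold denD
  rw [cd_prod]
  · rw [Finset.sum_eq_single 0]
    · refine cd_lin_one (mul_ne_zero two_ne_zero hkq) ⟨0, ?_⟩
      push_cast
      field_simp
      ring
    · intro j hj hj0
      have hj' := Finset.mem_range.mp hj
      refine cd_lin_zero (mul_ne_zero two_ne_zero hkq) ?_
      rintro ⟨z, hz⟩
      have h1 : (j : ℚ) = - (k * z) := by
        field_simp at hz
        linarith
      have h2 : (j : ℤ) = -(k * z) := by exact_mod_cast h1
      have h3 : (k : ℤ) ∣ j := ⟨-z, by rw [h2]; ring⟩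
      have h4 := Int.le_of_dvd (by omega) h3
      omega
    · intro h
      exact absurd (Finset.mem_range.mpr hk) h
  · intro j _
    exact lin_ne_zero _ (mul_ne_zero two_ne_zero hkq)

theorem class_ne (k l : ℕ) (hkl : k ≠ l) (P Q : ℚ[X]) (hP : P ≠ 0) (hQ : Q ≠ 0) :
    numD k * denD l * P * tr 1 Q ≠ numD l * denD k * tr 1 P * Q := by
  have key : ∀ k l : ℕ, l < k → ∀ P Q : ℚ[X], P ≠ 0 → Q ≠ 0 →
      numD k * denD l * P * tr 1 Q ≠ numD l * denD k * tr 1 P * Q := by
    intro k l hlk P Q hP hQ h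
    have hk : 0 < k := by omega
    have h1 := congrArg (cd (-(1 / (2 * k) : ℚ))) h
    have n1 := numD_ne_zero k
    have n2 := numD_ne_zero l
    have n3 := denD_ne_zero k
    have n4 := denD_ne_zero l
    have n5 := tr_ne_zero 1 hP
    have n6 := tr_ne_zero 1 hQ
    rw [cd_mul _ (mul_ne_zero (mul_ne_zero n1 n4) hP) n6, cd_mul _ (mul_ne_zero n1 n4) hP,
      cd_mul _ n1 n4, cd_mul _ (mul_ne_zero (mul_ne_zero n2 n3) n5) hQ,
      cd_mul _ (mul_ne_zero n2 n3) n5, cd_mul _ n2 n3, cd_tr, cd_tr,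
      cd_numD k k hk le_rfl, cd_numD k l hk hlk.le, cd_denD_lt k l hlk, cd_denD_self k hk] at h1
    omega
  rcases lt_or_gt_of_ne hkl with h | h
  · intro he
    refine key l k h Q P hQ hP ?_
    linear_combination -he
  · exact key k l h P Q hP hQ

theorem numD_natDegree (k : ℕ) : (numD k).natDegree ≤ k := by
  unfold numD
  refine (natDegree_prod_le _ _).trans ?_
  refine (Finset.sum_le_sum (g := fun _ => 1) fun l _ => ?_).trans (by simp)
  exact natDegree_linear_le

theorem denD_natDegree (k : ℕ) : (denD k).natDegree ≤ k := by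
  unfold denD
  refine (natDegree_prod_le _ _).trans ?_
  refine (Finset.sum_le_sum (g := fun _ => 1) fun l _ => ?_).trans (by simp)
  exact natDegree_linear_le

/-- numerator of `R_{ka}(ky)` -/
noncomputable def RN (k c : ℕ) : ℚ[X] :=
  ∏ l ∈ Finset.range c, (C (2 * (l + 1) - 1 : ℚ) - C (2 * k : ℚ) * X)

/-- denominator of `R_{ka}(ky)` -/
noncomputable def RD (k c : ℕ) : ℚ[X] :=
  ∏ l ∈ Finset.range c, (C (2 * (l + 1) : ℚ) - C (2 * k : ℚ) * X)

/-- the power series `R_c (k y) = ∏_{l=1}^{c} (2 l - 1 - 2 k y) / (2 l - 2 k y)` -/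
noncomputable def Rser (k c : ℕ) : PowerSeries ℚ := ps (RN k c) * (ps (RD k c))⁻¹

theorem cc_RD (k c : ℕ) : PowerSeries.constantCoeff (ps (RD k c)) ≠ 0 := by
  simp only [RD, map_prod]
  rw [Finset.prod_ne_zero_iff]
  intro l _
  simp
  positivity

theorem cc_RN (k c : ℕ) : PowerSeries.constantCoeff (ps (RN k c)) ≠ 0 := by
  simp only [RN, map_prod]
  rw [Finset.prod_ne_zero_iff]
  intro l _
  have : (2 * ((l : ℚ) + 1) - 1) ≠ 0 := by
    have : (0 : ℚ) ≤ l := Nat.cast_nonneg l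
    linarith
  simpa using this

theorem Rser_isUnit (k c : ℕ) : IsUnit (Rser k c) := by
  rw [PowerSeries.isUnit_iff_constantCoeff]
  unfold Rser
  rw [map_mul, PowerSeries.constantCoeff_inv]
  exact (mul_ne_zero (cc_RN k c) (inv_ne_zero (cc_RD k c))).isUnit

theorem Rser_mul (k c : ℕ) : Rser k c * ps (RD k c) = ps (RN k c) := by
  unfold Rser
  rw [mul_assoc, PowerSeries.inv_mul_cancel _ (cc_RD k c), mul_one]

theorem Rser_rec (k a : ℕ) :
    ps (tr (-((a : ℚ) + 1)) (denD k)) * Rser k (k * a) =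
      ps (tr (-((a : ℚ) + 1)) (numD k)) * Rser k (k * (a + 1)) := by
  have e1 : tr (-((a : ℚ) + 1)) (denD k) * RD k (k * (a + 1)) * RN k (k * a) =
      tr (-((a : ℚ) + 1)) (numD k) * RN k (k * (a + 1)) * RD k (k * a) := by
    have r1 : RN k (k * (a + 1)) = RN k (k * a) *
        ∏ j ∈ Finset.range k, (C (2 * ((k * a + j : ℕ) + 1) - 1 : ℚ) - C (2 * k : ℚ) * X) := by
      unfold RN
      rw [mul_add, mul_one, Finset.prod_range_add]
    have r2 : RD k (k * (a + 1)) = RD k (k * a) *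
        ∏ j ∈ Finset.range k, (C (2 * ((k * a + j : ℕ) + 1) : ℚ) - C (2 * k : ℚ) * X) := by
      unfold RD
      rw [mul_add, mul_one, Finset.prod_range_add]
    have r3 : tr (-((a : ℚ) + 1)) (denD k) = ∏ j ∈ Finset.range k,
        (-(C (2 * ((k * a + j : ℕ) + 1) - 1 : ℚ) - C (2 * k : ℚ) * X)) := by
      unfold denD
      rw [tr_prod, ← Finset.prod_range_reflect]
      refine Finset.prod_congr rfl fun j hj => ?_
      have hj' := Finset.mem_range.mp hj
      have h1 : ((k - 1 - j : ℕ) : ℚ) = k - 1 - j := by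
        rw [Nat.cast_sub (by omega), Nat.cast_sub (by omega)]; push_cast; ring
      rw [h1]
      simp only [tr, add_comp, mul_comp, C_comp, X_comp]
      push_cast
      simp only [map_add, map_sub, map_mul, map_neg, map_one]
      ring
    have r4 : tr (-((a : ℚ) + 1)) (numD k) = ∏ j ∈ Finset.range k,
        (-(C (2 * ((k * a + j : ℕ) + 1) : ℚ) - C (2 * k : ℚ) * X)) := by
      unfold numD
      rw [tr_prod, ← Finset.prod_range_reflect]
      refine Finset.prod_congr rfl fun j hj => ?_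
      have hj' := Finset.mem_range.mp hj
      have h1 : ((k - 1 - j : ℕ) : ℚ) = k - 1 - j := by
        rw [Nat.cast_sub (by omega), Nat.cast_sub (by omega)]; push_cast; ring
      rw [h1]
      simp only [tr, add_comp, mul_comp, C_comp, X_comp]
      push_cast
      simp only [map_add, map_sub, map_mul, map_neg, map_one]
      ring
    rw [r1, r2, r3, r4]
    rw [Finset.prod_neg, Finset.prod_neg]
    ring
  have e2 := congrArg ps e1
  simp only [map_mul] at e2
  rw [← Rser_mul k (k * a), ← Rser_mul k (k * (a + 1))] at e2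
  have u1 : ps (RD k (k * (a + 1))) ≠ 0 := fun h => cc_RD k (k * (a + 1)) (by rw [h, map_zero])
  have u2 : ps (RD k (k * a)) ≠ 0 := fun h => cc_RD k (k * a) (by rw [h, map_zero])
  have u3 := mul_ne_zero u1 u2
  refine mul_right_cancel₀ u3 ?_
  linear_combination e2

/-- **Zero estimate for dilations.** -/
theorem zero_est_dil {s m W n : ℕ} (A : Fin s → ℚ[X]) (hA0 : ∃ k, A k ≠ 0)
    (hA : ∀ k, (A k).natDegree ≤ n)
    (hz : ∀ a < m, (PowerSeries.X : PowerSeries ℚ) ^ W ∣
      ∑ k : Fin s, ps (tr (-(a : ℚ)) (A k)) * Rser k (k * a)) :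
    W * (m - (s - 1)) ≤ s * n + (s - 1) * (s * (s - 1) / 2) := by
  have h := zero_est (m := m) (W := W) (n := n) (fun k : Fin s => numD k) (fun k : Fin s => denD k) A
    (fun k => (k : ℕ)) (fun k => denD_ne_zero _) hA0 (fun k => numD_natDegree _)
    (fun k => denD_natDegree _) hA
    (fun k l hkl => class_ne k l (fun h => hkl (Fin.ext h)))
    (fun k a => Rser k (k * a)) (fun k a _ => Rser_isUnit _ _) (fun k a _ => Rser_rec k a) hz
  have h2 : ∑ k : Fin s, (k : ℕ) = s * (s - 1) / 2 := by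
    rw [Fin.sum_univ_eq_sum_range (fun k => k), Finset.sum_range_id]
  rwa [h2] at h

end H41TE
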