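import Pool.Agent.H41.TE.Caso

/-!
# Zero estimate for sums `∑ A_k f_k` with `f_k (x+1) = (num_k / den_k)(x) f_k (x)`

The functions `f_k` are given by their local expansions `Phi k a` at the nodes `x = -a`
(`a = 0, ..., m-1`), which are power series with nonzero constant term.
-/

namespace H41TE

open Polynomial

/-- translate of a polynomial by a constant: `tr c P (x) = P (x + c)` -/
noncomputable def tr (c : ℚ) (P : ℚ[X]) : ℚ[X] := P.comp (X + C c)

theorem tr_def (c : ℚ) (P : ℚ[X]) : tr c P = P.comp (X + C c) := rfl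

theorem tr_mul (c : ℚ) (P Q : ℚ[X]) : tr c (P * Q) = tr c P * tr c Q := by
  simp [tr]

theorem tr_prod {ι : Type*} (c : ℚ) (s : Finset ι) (P : ι → ℚ[X]) :
    tr c (∏ i ∈ s, P i) = ∏ i ∈ s, tr c (P i) := by
  simp [tr, Polynomial.prod_comp]

theorem tr_tr (c d : ℚ) (P : ℚ[X]) : tr c (tr d P) = tr (c + d) P := by
  simp only [tr, comp_assoc, add_comp, X_comp, C_comp, map_add]
  congr 1; ring

theorem tr_zero' (P : ℚ[X]) : tr 0 P = P := by simp [tr]

theorem tr_ne_zero (c : ℚ) {P : ℚ[X]} (h : P ≠ 0) : tr c P ≠ 0 := by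
  intro h0
  have := tr_tr (-c) c P
  rw [h0, neg_add_cancel, tr_zero'] at this
  simp [tr] at this
  exact h this.symm

theorem natDegree_tr (c : ℚ) (P : ℚ[X]) : (tr c P).natDegree = P.natDegree := by
  simp [tr, natDegree_comp]

/-- translation as a ring automorphism of `ℚ[X]` -/
noncomputable def trE (c : ℚ) : ℚ[X] ≃+* ℚ[X] where
  toFun := tr c
  invFun := tr (-c)
  left_inv P := by rw [tr_tr, neg_add_cancel, tr_zero']
  right_inv P := by rw [tr_tr, add_neg_cancel, tr_zero']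
  map_mul' := tr_mul c
  map_add' P Q := by simp [tr]

/-- translation by `1` on the rational functions -/
noncomputable def tau : RatFunc ℚ ≃+* RatFunc ℚ :=
  IsFractionRing.ringEquivOfRingEquiv (trE 1)

theorem tau_alg (P : ℚ[X]) : tau (algebraMap ℚ[X] (RatFunc ℚ) P) =
    algebraMap ℚ[X] (RatFunc ℚ) (tr 1 P) :=
  IsFractionRing.ringEquivOfRingEquiv_algebraMap _ _

theorem tau_pow_alg (i : ℕ) (P : ℚ[X]) : (tau ^ i) (algebraMap ℚ[X] (RatFunc ℚ) P) =
    algebraMap ℚ[X] (RatFunc ℚ) (tr i P) := by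
  induction i with
  | zero => simp [tr_zero']
  | succ i ih =>
    rw [pow_succ']
    change tau ((tau ^ i) (algebraMap ℚ[X] (RatFunc ℚ) P)) = _
    rw [ih, tau_alg, tr_tr]
    congr 2
    push_cast; ring

/-- the cleared Casorati matrix -/
noncomputable def cas {s : ℕ} (num den A : Fin s → ℚ[X]) : Matrix (Fin s) (Fin s) ℚ[X] :=
  Matrix.of fun i k => tr (i : ℕ) (A k) * (∏ l ∈ Finset.range i, tr l (num k)) *
    ∏ l ∈ Finset.Ico (i : ℕ) (s - 1), tr l (den k)

theorem cas_det_ne_zero {s : ℕ} (num den A : Fin s → ℚ[X])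
    (hden : ∀ k, den k ≠ 0) (hA : ∀ k, A k ≠ 0)
    (h : ∀ k l, k ≠ l → ∀ P Q : ℚ[X], P ≠ 0 → Q ≠ 0 →
      num k * den l * P * tr 1 Q ≠ num l * den k * tr 1 P * Q) :
    (cas num den A).det ≠ 0 := by
  set φ := algebraMap ℚ[X] (RatFunc ℚ) with hφ
  have hinj : Function.Injective φ := IsFractionRing.injective _ _
  intro h0
  have h1 : ((cas num den A).map φ).det = 0 := by
    rw [← RingHom.mapMatrix_apply, ← RingHom.map_det, h0, map_zero]
  have h2 : (cas num den A).map φ = Matrix.of fun i k : Fin s =>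
      φ (∏ l ∈ Finset.range (s - 1), tr l (den k)) * (Matrix.of fun i k : Fin s =>
        (tau ^ (i : ℕ)) (φ (A k)) * nrm tau (i : ℕ) (φ (num k) / φ (den k))) i k := by
    ext i k
    simp only [cas, Matrix.map_apply, Matrix.of_apply, map_mul, map_prod]
    rw [tau_pow_alg, nrm_eq_prod]
    have h3 : ∀ l : ℕ, (tau ^ l) (φ (num k) / φ (den k)) = φ (tr l (num k)) / φ (tr l (den k)) := by
      intro l
      rw [map_div₀, tau_pow_alg, tau_pow_alg]
    simp only [h3, Finset.prod_div_distrib]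
    have hi : (i : ℕ) ≤ s - 1 := by have := i.2; omega
    have h4 : ∏ l ∈ Finset.range (s - 1), φ (tr l (den k)) =
        (∏ l ∈ Finset.range i, φ (tr l (den k))) * ∏ l ∈ Finset.Ico (i : ℕ) (s - 1), φ (tr l (den k)) := by
      rw [Finset.prod_range_mul_prod_Ico _ hi]
    rw [h4, ← hφ]
    have h5 : ∏ l ∈ Finset.range i, φ (tr l (den k)) ≠ 0 := by
      refine Finset.prod_ne_zero_iff.mpr fun l _ => ?_
      rw [Ne, ← map_zero φ]
      exact fun h => tr_ne_zero _ (hden k) (hinj h)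
    field_simp
  rw [h2, Matrix.det_mul_row] at h1
  rcases mul_eq_zero.mp h1 with h3 | h3
  · obtain ⟨k, _, hk⟩ := Finset.prod_eq_zero_iff.mp h3
    rw [← map_zero φ] at hk
    have := hinj hk
    rw [Finset.prod_eq_zero_iff] at this
    obtain ⟨l, _, hl⟩ := this
    exact tr_ne_zero _ (hden k) hl
  · refine det_ne_zero' tau (fun k => φ (num k) / φ (den k)) (fun k => φ (A k)) ?_ ?_ h3
    · intro k hk
      rw [← map_zero φ] at hk
      exact hA k (hinj hk)
    · intro k l hkl b hb he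
      obtain ⟨P, Q, hQ, rfl⟩ := IsFractionRing.div_surjective (A := ℚ[X]) b
      have hQ0 : Q ≠ 0 := nonZeroDivisors.ne_zero hQ
      have hP0 : P ≠ 0 := by
        rintro rfl
        simp at hb
      refine h k l hkl P Q hP0 hQ0 (hinj ?_)
      have n1 : ∀ R : ℚ[X], R ≠ 0 → φ R ≠ 0 := fun R hR h0 => hR (hinj (by rw [h0, map_zero]))
      have a1 := n1 _ hQ0
      have a2 := n1 _ (hden k)
      have a3 := n1 _ (hden l)
      have a4 := n1 _ (tr_ne_zero 1 hQ0)
      simp only [map_div₀] at he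
      rw [← hφ, tau_alg, tau_alg, ← hφ] at he
      field_simp at he
      simp only [map_mul]
      linear_combination he

theorem cas_natDegree {s : ℕ} (num den A : Fin s → ℚ[X]) (d : Fin s → ℕ) (n : ℕ)
    (hnum : ∀ k, (num k).natDegree ≤ d k) (hden : ∀ k, (den k).natDegree ≤ d k)
    (hA : ∀ k, (A k).natDegree ≤ n) :
    (cas num den A).det.natDegree ≤ s * n + (s - 1) * ∑ k, d k := by
  rw [Matrix.det_apply]
  refine natDegree_sum_le_of_forall_le _ _ fun σ _ => ?_
  refine (natDegree_smul_le _ _).trans ?_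
  refine (natDegree_prod_le _ _).trans ?_
  have h1 : ∀ i : Fin s, ((cas num den A) (σ i) i).natDegree ≤ n + (s - 1) * d i := by
    intro i
    simp only [cas, Matrix.of_apply]
    have hi : ((σ i : Fin s) : ℕ) ≤ s - 1 := by have := (σ i).2; omega
    refine natDegree_mul_le.trans ?_
    have e1 : (∏ l ∈ Finset.range (σ i), tr l (num i)).natDegree ≤ (σ i : ℕ) * d i := by
      refine (natDegree_prod_le _ _).trans ?_
      refine (Finset.sum_le_sum (g := fun _ => d i) fun l _ => ?_).trans ?_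
      · simp only [natDegree_tr]; exact hnum i
      · simp
    have e2 : (∏ l ∈ Finset.Ico ((σ i : Fin s) : ℕ) (s - 1), tr l (den i)).natDegree ≤
        (s - 1 - (σ i : ℕ)) * d i := by
      refine (natDegree_prod_le _ _).trans ?_
      refine (Finset.sum_le_sum (g := fun _ => d i) fun l _ => ?_).trans ?_
      · simp only [natDegree_tr]; exact hden i
      · simp
    have e3 : (tr (σ i : ℕ) (A i) * ∏ l ∈ Finset.range (σ i), tr l (num i)).natDegree ≤
        n + (σ i : ℕ) * d i := by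
      refine natDegree_mul_le.trans ?_
      rw [natDegree_tr]
      exact add_le_add (hA i) e1
    calc _ ≤ (n + (σ i : ℕ) * d i) + (s - 1 - (σ i : ℕ)) * d i := add_le_add e3 e2
      _ = n + ((σ i : ℕ) + (s - 1 - (σ i : ℕ))) * d i := by ring
      _ = n + (s - 1) * d i := by rw [Nat.add_sub_cancel' hi]
  refine (Finset.sum_le_sum fun i _ => h1 i).trans ?_
  rw [Finset.sum_add_distrib, Finset.mul_sum]
  simp

/-- a determinant whose row sums are divisible by `c` is divisible by `c` -/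
theorem dvd_det_of_sum {R : Type*} [CommRing R] {s : ℕ} (hs : 0 < s) (c : R)
    (M : Matrix (Fin s) (Fin s) R) (h : ∀ i, c ∣ ∑ k, M i k) : c ∣ M.det := by
  classical
  have k0 : Fin s := ⟨0, hs⟩
  have h1 : M.det = (M.updateCol k0 (fun i => ∑ k, M i k)).det := by
    have := Matrix.det_updateCol_sum M k0 (fun _ => 1)
    simp only [one_smul] at this
    rw [← this]
  choose g hg using h
  have h2 : (fun i => ∑ k, M i k) = c • g := by
    funext i
    rw [hg i]; rfl
  rw [h1, h2, Matrix.det_updateCol_smul]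
  exact dvd_mul_right _ _

/-- polynomials to power series -/
noncomputable abbrev ps : ℚ[X] →+* PowerSeries ℚ := Polynomial.coeToPowerSeries.ringHom

theorem X_pow_dvd_of_ps {W : ℕ} {P : ℚ[X]} (h : (PowerSeries.X : PowerSeries ℚ) ^ W ∣ ps P) :
    X ^ W ∣ P := by
  rw [Polynomial.X_pow_dvd_iff]
  intro d hd
  have := PowerSeries.X_pow_dvd_iff.mp h d hd
  simpa using this

theorem rec_iter {m : ℕ} (num den : ℚ[X]) (Phi : ℕ → PowerSeries ℚ)
    (hrec : ∀ a, a + 1 < m → ps (tr (-((a : ℚ) + 1)) den) * Phi a =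
      ps (tr (-((a : ℚ) + 1)) num) * Phi (a + 1)) (a : ℕ) (ham : a < m) (i : ℕ) (hi : i ≤ a) :
    (∏ l ∈ Finset.range i, ps (tr (-(a : ℚ) + l) num)) * Phi a =
      (∏ l ∈ Finset.range i, ps (tr (-(a : ℚ) + l) den)) * Phi (a - i) := by
  induction i with
  | zero => simp
  | succ i ih =>
    rw [Finset.prod_range_succ, Finset.prod_range_succ]
    have h1 := hrec (a - (i + 1)) (by omega)
    have h2 : a - (i + 1) + 1 = a - i := by omega
    rw [h2] at h1
    have h3 : (-(((a - (i + 1) : ℕ) : ℚ) + 1)) = -(a : ℚ) + i := by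
      rw [Nat.cast_sub hi]; push_cast; ring
    rw [h3] at h1
    calc _ = ((∏ l ∈ Finset.range i, ps (tr (-(a : ℚ) + l) num)) * Phi a) *
          ps (tr (-(a : ℚ) + i) num) := by ring
      _ = ((∏ l ∈ Finset.range i, ps (tr (-(a : ℚ) + l) den)) * Phi (a - i)) *
          ps (tr (-(a : ℚ) + i) num) := by rw [ih (by omega)]
      _ = (∏ l ∈ Finset.range i, ps (tr (-(a : ℚ) + l) den)) *
          (ps (tr (-(a : ℚ) + i) num) * Phi (a - i)) := by ring
      _ = _ := by rw [← h1]; ring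

theorem cas_dvd {s m W : ℕ} (hs : 0 < s) (num den A : Fin s → ℚ[X])
    (Phi : Fin s → ℕ → PowerSeries ℚ) (hPhi : ∀ k a, a < m → IsUnit (Phi k a))
    (hrec : ∀ k a, a + 1 < m → ps (tr (-((a : ℚ) + 1)) (den k)) * Phi k a =
      ps (tr (-((a : ℚ) + 1)) (num k)) * Phi k (a + 1))
    (hz : ∀ a < m, (PowerSeries.X : PowerSeries ℚ) ^ W ∣ ∑ k, ps (tr (-(a : ℚ)) (A k)) * Phi k a)
    (a : ℕ) (ha : s - 1 ≤ a) (ham : a < m) : (X + C (a : ℚ)) ^ W ∣ (cas num den A).det := by
  set N : Matrix (Fin s) (Fin s) (PowerSeries ℚ) :=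
    (cas num den A).map (fun P => ps (tr (-(a : ℚ)) P)) with hN
  have hdetN : N.det = ps (tr (-(a : ℚ)) (cas num den A).det) := by
    have : N = (ps.comp (trE (-(a : ℚ))).toRingHom).mapMatrix (cas num den A) := rfl
    rw [this, ← RingHom.map_det]
    rfl
  have h1 : ∀ i k : Fin s, N i k * Phi k a =
      (∏ l ∈ Finset.range (s - 1), ps (tr (-(a : ℚ) + l) (den k))) *
        (ps (tr (-((a - (i : ℕ) : ℕ) : ℚ)) (A k)) * Phi k (a - i)) := by
    intro i k
    have hi : (i : ℕ) ≤ s - 1 := by have := i.2; omega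
    have e1 := rec_iter (num k) (den k) (Phi k) (hrec k) a ham i (by omega)
    simp only [hN, cas, Matrix.map_apply, Matrix.of_apply, tr_mul, tr_prod, map_mul, map_prod, tr_tr]
    have e2 : (-(a : ℚ) + ((i : ℕ) : ℚ)) = -((a - (i : ℕ) : ℕ) : ℚ) := by
      rw [Nat.cast_sub (by omega)]; ring
    rw [← Finset.prod_range_mul_prod_Ico _ hi, ← e2]
    calc _ = ps (tr (-(a : ℚ) + ((i : ℕ) : ℚ)) (A k)) *
          (∏ l ∈ Finset.Ico (i : ℕ) (s - 1), ps (tr (-(a : ℚ) + l) (den k))) *
          ((∏ l ∈ Finset.range i, ps (tr (-(a : ℚ) + l) (num k))) * Phi k a) := by ring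
      _ = _ := by rw [e1]; ring
  have h2 : N.det * ∏ k, Phi k a = (∏ k, ∏ l ∈ Finset.range (s - 1), ps (tr (-(a : ℚ) + l) (den k))) *
      (Matrix.of fun i k : Fin s => ps (tr (-((a - (i : ℕ) : ℕ) : ℚ)) (A k)) * Phi k (a - i)).det := by
    rw [← Matrix.det_mul_row, mul_comm, ← Matrix.det_mul_row]
    congr 1
    ext1 i k
    simp only [Matrix.of_apply]
    rw [mul_comm, h1 i k]
  have h3 : (PowerSeries.X : PowerSeries ℚ) ^ W ∣ N.det * ∏ k, Phi k a := by
    rw [h2]
    refine Dvd.dvd.mul_left ?_ _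
    refine dvd_det_of_sum hs _ _ fun i => ?_
    simp only [Matrix.of_apply]
    have hi : (i : ℕ) ≤ s - 1 := by have := i.2; omega
    exact hz (a - i) (by omega)
  have h4 : IsUnit (∏ k, Phi k a) := by
    rw [IsUnit.prod_univ_iff]
    intro k
    exact hPhi k a ham
  have h5 : (PowerSeries.X : PowerSeries ℚ) ^ W ∣ N.det := (IsUnit.dvd_mul_right h4).mp h3
  rw [hdetN] at h5
  have h6 := X_pow_dvd_of_ps h5
  have h7 := map_dvd (trE (a : ℚ)) h6
  have h8 : trE (a : ℚ) (tr (-(a : ℚ)) (cas num den A).det) = (cas num den A).det := by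
    change tr (a : ℚ) (tr (-(a : ℚ)) (cas num den A).det) = _
    rw [tr_tr, add_neg_cancel, tr_zero']
  rw [h8, map_pow] at h7
  have h9 : trE (a : ℚ) X = X + C (a : ℚ) := by
    change tr (a : ℚ) X = _
    simp [tr]
  rwa [h9] at h7

/-- zero estimate, all `A k ≠ 0` -/
theorem zero_est_aux {s m W n : ℕ} (hs : 0 < s) (num den A : Fin s → ℚ[X]) (d : Fin s → ℕ)
    (hden0 : ∀ k, den k ≠ 0) (hA0 : ∀ k, A k ≠ 0)
    (hnum : ∀ k, (num k).natDegree ≤ d k) (hden : ∀ k, (den k).natDegree ≤ d k)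
    (hA : ∀ k, (A k).natDegree ≤ n)
    (hcl : ∀ k l, k ≠ l → ∀ P Q : ℚ[X], P ≠ 0 → Q ≠ 0 →
      num k * den l * P * tr 1 Q ≠ num l * den k * tr 1 P * Q)
    (Phi : Fin s → ℕ → PowerSeries ℚ) (hPhi : ∀ k a, a < m → IsUnit (Phi k a))
    (hrec : ∀ k a, a + 1 < m → ps (tr (-((a : ℚ) + 1)) (den k)) * Phi k a =
      ps (tr (-((a : ℚ) + 1)) (num k)) * Phi k (a + 1))
    (hz : ∀ a < m, (PowerSeries.X : PowerSeries ℚ) ^ W ∣ ∑ k, ps (tr (-(a : ℚ)) (A k)) * Phi k a) :
    W * (m - (s - 1)) ≤ s * n + (s - 1) * ∑ k, d k := by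
  have h0 := cas_det_ne_zero num den A hden0 hA0 hcl
  have h1 : ∏ a ∈ Finset.Ico (s - 1) m, (X + C (a : ℚ)) ^ W ∣ (cas num den A).det := by
    refine Finset.prod_dvd_of_coprime ?_ ?_
    · intro a _ b _ hab
      refine IsCoprime.pow ?_
      have : (a : ℚ) ≠ b := by exact_mod_cast hab
      have h2 := Polynomial.pairwise_coprime_X_sub_C (K := ℚ) (s := fun x : ℚ => x)
        Function.injective_id (i := -(a : ℚ)) (j := -(b : ℚ)) (by simpa using this)
      simpa [Function.onFun] using h2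
    · intro a ha
      rw [Finset.mem_Ico] at ha
      exact cas_dvd hs num den A Phi hPhi hrec hz a ha.1 ha.2
  have h2 := natDegree_le_of_dvd h1 h0
  have h3 : (∏ a ∈ Finset.Ico (s - 1) m, (X + C (a : ℚ)) ^ W).natDegree = W * (m - (s - 1)) := by
    rw [natDegree_prod_of_monic _ _ (fun a _ => (monic_X_add_C _).pow _)]
    simp only [natDegree_pow, natDegree_X_add_C, mul_one, Finset.sum_const, Nat.card_Ico, smul_eq_mul]
    rw [mul_comm]
  rw [h3] at h2
  exact h2.trans (cas_natDegree num den A d n hnum hden hA)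

/-- **Zero estimate.** -/
theorem zero_est {s m W n : ℕ} (num den A : Fin s → ℚ[X]) (d : Fin s → ℕ)
    (hden0 : ∀ k, den k ≠ 0) (hA0 : ∃ k, A k ≠ 0)
    (hnum : ∀ k, (num k).natDegree ≤ d k) (hden : ∀ k, (den k).natDegree ≤ d k)
    (hA : ∀ k, (A k).natDegree ≤ n)
    (hcl : ∀ k l, k ≠ l → ∀ P Q : ℚ[X], P ≠ 0 → Q ≠ 0 →
      num k * den l * P * tr 1 Q ≠ num l * den k * tr 1 P * Q)
    (Phi : Fin s → ℕ → PowerSeries ℚ) (hPhi : ∀ k a, a < m → IsUnit (Phi k a))
    (hrec : ∀ k a, a + 1 < m → ps (tr (-((a : ℚ) + 1)) (den k)) * Phi k a =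
      ps (tr (-((a : ℚ) + 1)) (num k)) * Phi k (a + 1))
    (hz : ∀ a < m, (PowerSeries.X : PowerSeries ℚ) ^ W ∣ ∑ k, ps (tr (-(a : ℚ)) (A k)) * Phi k a) :
    W * (m - (s - 1)) ≤ s * n + (s - 1) * ∑ k, d k := by
  classical
  set S : Finset (Fin s) := Finset.univ.filter (fun k => A k ≠ 0) with hS
  have hSc : S.card ≤ s := by
    have := Finset.card_le_univ S
    simpa using this
  have hS0 : 0 < S.card := by
    obtain ⟨k, hk⟩ := hA0
    exact Finset.card_pos.mpr ⟨k, by simp [hS, hk]⟩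
  set e : Fin S.card ≃ S := S.equivFin.symm with he
  have hmem : ∀ j, A (e j : Fin s) ≠ 0 := by
    intro j
    have := (e j).2
    simp only [hS, Finset.mem_filter] at this
    exact this.2
  have h := zero_est_aux (n := n) (m := m) (W := W) hS0 (fun j => num (e j)) (fun j => den (e j))
    (fun j => A (e j)) (fun j => d (e j)) (fun j => hden0 _) hmem
    (fun j => hnum _) (fun j => hden _) (fun j => hA _)
    (fun j l hjl => hcl _ _ (fun h => hjl (e.injective (Subtype.ext h))))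
    (fun j => Phi (e j)) (fun j => hPhi _) (fun j => hrec _)
    (by
      intro a ha
      have h1 := hz a ha
      have h2 : ∑ k, ps (tr (-(a : ℚ)) (A k)) * Phi k a =
          ∑ j, ps (tr (-(a : ℚ)) (A (e j))) * Phi (e j) a := by
        rw [e.sum_comp (fun x : S => ps (tr (-(a : ℚ)) (A x)) * Phi x a)]
        rw [Finset.sum_coe_sort S (fun k => ps (tr (-(a : ℚ)) (A k)) * Phi k a)]
        symm
        refine Finset.sum_subset (Finset.subset_univ _) ?_
        intro k _ hk
        have : A k = 0 := by simpa [hS] using hk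
        rw [this]; simp [tr]
      rwa [h2] at h1)
  have hd : ∑ j, d (e j) ≤ ∑ k, d k := by
    rw [e.sum_comp (fun x : S => d x), Finset.sum_coe_sort S d]
    exact Finset.sum_le_sum_of_subset (Finset.subset_univ _)
  calc W * (m - (s - 1)) ≤ W * (m - (S.card - 1)) := by
        refine Nat.mul_le_mul_left _ ?_
        omega
    _ ≤ S.card * n + (S.card - 1) * ∑ j, d (e j) := h
    _ ≤ s * n + (s - 1) * ∑ k, d k := by
        refine add_le_add (Nat.mul_le_mul_right _ hSc) (Nat.mul_le_mul ?_ hd)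
        omega

end H41TE
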